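import Pool.Agent.Run7.h458.BaseChange

/-!
# Q1 for all curves over all perfectoid fields

The setting and the notions `Tilting`, `BaseField`, `IsConeOver`, `DimGE`, `DimLEOver`, `Approximable` are
those of `AllPerfectoidFields` (starting point): `K` is a perfectoid field of characteristic `0` and residue
characteristic `p`, `E = K♭` is its tilt, `C` is the completion of an algebraic closure of `K`, and `F = C♭`
contains `E`. The structure `Tilting p C F` consists of the absolute values, of the map `x ↦ x♯` from `F` to
`C` and of Fontaine's map `θ` from `W(O_F)` onto `O_C`; `BaseField T K E` says that `E` is perfect, that it
contains an element of absolute value `|p|`, and that `θ` maps `W(O_E)` onto `O_K`. `IsCompletedClosure T E`: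
`F` and `E` are complete, and the elements of `F` which are algebraic over `E` are dense in `F`, so that `F` is
the completion of the algebraic closure of `E`. These are well-known facts for every perfectoid field `K`.
(`K` is not assumed to be algebraically closed; the case `K = C`, `E = F` is included.)

Closed subsets of projective spaces are given by their cones (`IsConeOver K X`: the set of the points over
`C` of the cone over a closed subset defined over `K`). The dimension of `X` is at least `1` if every form has
a zero on `X` (`DimGE X 1`), and at most `1` if some two forms over `K` have no common zero on `X`
(`DimLEOver K X 1`). `Approximable T K E X d` is Q1 for a closed subset `X` of dimension `d` defined over `K`: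
for all homogeneous polynomials `P_k` over `K` which vanish on `X` and all `ε > 0` there is a closed subset `Y`
of dimension `d` defined over `E = K♭` with `|P_k (y♯)| ≤ ε ‖y‖ ^ (deg P_k)` for all `k` and all points `y` of
`Y` over `F`. (If the `P_k` generate the ideal of `X`, these tubes are a basis of the neighbourhoods of `X` in the
adic space; it is enough to consider the points of `Y` with values in `F`, because the preimage of the tube is
a quasi-compact open subset of the adic space of `Y`.)

Theorem. Let `X` be a closed subset of dimension `1` of `ℙ^n` over a perfectoid field `K`: an arbitrary curve,
smooth or not, irreducible or not, in an arbitrary projective embedding. Then Q1 holds for `X`.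

Previously Q1 was known for curves which are constructed in special ways: complete intersections (in
projective spaces, toric varieties, products of known varieties and so on), images of such curves under
maps given by forms of the same degree, and unions of these. Here there is no condition on the curve or on
its embedding.

Proof. (1) The case `K = C`. Project `X` to the projective line. After the choice of suitable coordinates the
affine part of `X` is given by a tower of monic equations over `C[a]`. Monic polynomials `h` over `C` can be
approximated by monic separable polynomials `g` over `F` such that `|h(t♯)|` is small at the zeros `t` of `g`
(`approx_poly`). So one gets an affine curve over `F`, finite over the affine line, whose points over the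
disc `|a| ≤ 2 r`, for a large radius `r`, are mapped to the tube around `X`. Its closure would leave the tube
near infinity. But near the circle `|a| = r` the quotients `x_i / a` are close to the coordinates of the
finitely many points of `X` at infinity, the centers. Let `k` be a countably generated complete subfield of `F`
and `H` the completion of `k(a)` for the Gauss norm of radius `r`, where no power of `r` is in the value group of
`k` (`Circle`, `exists_subfield`). The affine curve gives a finite separable algebra `A` over `H` with a lattice
over `k[a]`; by Krasner's lemma `A` also comes from a finite algebra over `k[1 / a]` (`Chart`). Modules over `H`
with a lattice over `k[a]` and a lattice over `k[1 / a]` define vector bundles on the projective line, and the two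
charts are glued to a projective curve `Y`. For the maps to the projective space: for large `M` there are
sections of a bundle of degree `p ^ M` which are close to the `p ^ M`-th powers of the coordinates `x_i` of the
affine curve on the first chart and of the constant centers on the second chart (`exists_glued`), and one
takes `p ^ M`-th roots of the coordinates, as `F` is perfect. The points of `Y` are close to points of the tube.

(2) Density (`approximable_dense`). Let `L` be the algebraic closure of `E` in `F`. A point at which the
elements of a prime ideal are small is close to a zero of the ideal (`near_prime`: Noether normalization,
minimal polynomials of many linear combinations of the coordinates, the pigeonhole principle and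
interpolation). Hence the coefficients of equations of `Y` can be approximated by elements of `L` satisfying
the same algebraic relations over `L` (`exists_specialization`), the dimension does not decrease under this
specialization (`dimGE_specialize`), and the new `Y` is close to the old one.

(3) Descent from `L` to `E` (`descent_dense`). The embeddings of `L` over `E` extend to isometric automorphisms
of `F` (`exists_aut`), and these preserve the absolute values `|P (y♯)|` for forms `P` over `K`, as can be seen in
the Witt vectors (`abs_aut`). So the union of the conjugates of `Y` lies in the tube, and is defined over `E`.
-/

set_option autoImplicit false

namespace Pool.Agent.Results.MP_db3ab1_ag.Curves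

open MvPolynomial Pool.Agent.Y129.TA Pool.Agent.Y129.TB Run7.h458

/-- **Q1 holds for all curves over all perfectoid fields.** -/
theorem result {p : ℕ} [Fact p.Prime] {C F K E : Type} [Field C] [Field F] [CharP F p] [Field K]
    [Field E] [Algebra K C] [Algebra E F] [IsAlgClosed C] [IsAlgClosed F] (T : Tilting p C F)
    (B : BaseField T K E) (hE : IsCompletedClosure T.toTiltPair E) {n : ℕ}
    {X : Set (Fin (n + 1) → C)} (hX : IsConeOver K X) (h1 : DimGE X 1) (h2 : DimLEOver K X 1) :
    Approximable T.toTiltPair K E X 1 :=
  curves_over T B hE hX h1 h2

end Pool.Agent.Results.MP_db3ab1_ag.Curves
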