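import Pool.Agent.Run7.h458.BaseChange

/-!
# Q1 over a perfectoid field is equivalent to Q1 over the completion of its algebraic closure

The setting and the notions `Tilting`, `BaseField`, `IsConeOver`, `DimLEOver`, `Approximable` are those of
`AllPerfectoidFields` (starting point): `K` is a perfectoid field of characteristic `0` and residue
characteristic `p`, `E = K♭` is its tilt, `C` is the completion of an algebraic closure of `K`, and `F = C♭`
contains `E`. `IsCompletedClosure T E`: `F` and `E` are complete, and the elements of `F` which are algebraic
over `E` are dense in `F`. These are well-known facts for every perfectoid field `K`.

`Approximable T K E X d` is Q1 over `K` for a closed subset `X` of dimension `d` of the projective space defined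
over `K` (given by the points of its cone over `C`): for all homogeneous polynomials `P_k` over `K` which
vanish on `X` and all `ε > 0` there is a closed subset `Y` of dimension `d` defined over `E = K♭` with
`|P_k (y♯)| ≤ ε ‖y‖ ^ (deg P_k)` for all `k` and all points `y` of `Y` over `F`. `Approximable T C F X d` is the same
for the base field `C`: the `P_k` have coefficients in `C` and `Y` is defined over `F`.

Theorem. Let `X` be a closed subset of `ℙ^n` of dimension at most `d` defined over a perfectoid field `K`. Then
Q1 holds for `X` over `K`, with approximating varieties over `K♭`, if and only if it holds for `X` over `C`.

So Q1 has to be proved only for algebraically closed perfectoid fields. In particular, if Q1 holds for all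
(smooth) `X` over the completed algebraic closure `ℂ_p`, then it holds over the completion `K` of
`k(ϖ^(1/p^∞))` for every local field `k`, with the approximating varieties defined over `K♭`; this is
what is needed for the weight-monodromy conjecture. The starting file `DescentOfBaseField` treats algebraic
extensions of `K`, under the additional hypothesis that embeddings lift to automorphisms of `C` and `F`; the
passage to the completion `C`, which is not algebraic over `K`, is new, and the hypothesis is proved here.

Proof. Let `L` be the algebraic closure of `E` in `F`. (1) A point of the unit ball at which the equations of a
closed set are small is close to a point of the set (`near_closed`). (For a prime ideal one uses a Noether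
normalization of the quotient, the minimal polynomials over the normal polynomial ring of
sufficiently many linear combinations `∑ μ ^ i x_i` of the coordinates, roots of unity `μ`, the pigeonhole
principle for the finitely many points over a point of the affine space, and interpolation.) (2) Applied over
`L` to the ideal of the algebraic relations over `L` between elements `s_1, ..., s_m` of `F` this shows that there
are elements `z_1, ..., z_m` of `L` close to `s_1, ..., s_m` with the same relations (`exists_specialization`).
(3) Take for the `s_j` the coefficients of equations of an approximating variety `Y` over `F`. The variety `Y'`
with the coefficients `z_j` has dimension at least `d`: if some `d` forms over `F` had no common zeros on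
`Y'`, the monomials of a large degree would be combinations of these forms and of the equations of `Y'`;
by a generic determinant the same holds for `Y` and suitable forms of the same degrees
(`dimGE_specialize`). It has dimension at most `d` and lies in the tube by (1). So Q1 over `C` holds with varieties
over `L`. (4) The embeddings of `L` over `E` are isometric, because `E` is complete, and extend to isometric
automorphisms of `F`. For these, `|P ((τ y)♯)| = |P (y♯)|` for all forms `P` over `K`: if `x` in `W(O_F)` satisfies
`|θ (x)| = |β|`, then up to an arbitrarily small error `x` is congruent to a multiple of `[β]` modulo the kernel
of `θ`, by steps which commute with `τ` (`theta_aut`). So the conjugates of the approximating varieties lie in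
the tubes, and their union is defined over `E`. (5) Conversely, by the Nullstellensatz over `C` small tubes
for equations of `X` over `K` are contained in the tubes for given forms over `C`.
-/

set_option autoImplicit false

namespace Pool.Agent.Results.MP_db3ab1_ag.GeometricBaseChange

open MvPolynomial Pool.Agent.Y129.TA Pool.Agent.Y129.TB Run7.h458

/-- **Q1 for `X` over a perfectoid field `K` is equivalent to Q1 for `X` over the completion `C` of the
algebraic closure of `K`.** -/
theorem result {p : ℕ} [Fact p.Prime] {C F K E : Type} [Field C] [Field F] [CharP F p] [Field K]
    [Field E] [Algebra K C] [Algebra E F] [IsAlgClosed C] [IsAlgClosed F] (T : Tilting p C F)
    (B : BaseField T K E) (hE : IsCompletedClosure T.toTiltPair E) {n d : ℕ}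
    {X : Set (Fin (n + 1) → C)} (hX : IsConeOver K X) (hd : DimLEOver K X d) :
    Approximable T.toTiltPair K E X d ↔ Approximable T.toTiltPair C F X d :=
  ⟨ascends T hX, descends T B hE hX hd⟩

end Pool.Agent.Results.MP_db3ab1_ag.GeometricBaseChange
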