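import Pool.Agent.Run7.h458.MPFactor

/-!
# Q1 for images of complete intersections of arbitrary multidegrees in products of curves and of other
varieties for which Q1 is known

The setting and the notions `Tilting`, `BaseField`, `IsCompletedClosure`, `IsConeOver`, `DimGE`,
`DimLEOver`, `Approximable` are those of `Curves` and of `AllPerfectoidFields` (starting point): `K` is a
perfectoid field of characteristic `0`, `E = K♭` its tilt, `C` the completion of an algebraic closure of
`K`, and `F = C♭`. Closed subsets of projective spaces are given by their cones, and
`Approximable T K E X d` is Q1 for a closed subset `X` of dimension `d` defined over `K`: for all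
homogeneous polynomials `P_k` over `K` which vanish on `X` and all `ε > 0` there is a closed subset `Y` of
dimension `d` defined over `E = K♭` with `|P_k (y♯)| ≤ ε ‖y‖ ^ (deg P_k)` for all `k` and all points `y` of `Y`.

Let `X_1, ..., X_r` be closed subsets of projective spaces defined over `K` of dimensions `δ_1, ..., δ_r`,
each of which is (`IsFactor`)

* the whole projective space, or
* an arbitrary closed subset of dimension `1` (a curve, in an arbitrary embedding), or
* a finite union of images of complete intersections in toric varieties, or
* an arbitrary closed subset for which Q1 holds.

Let `g_1, ..., g_c` be multihomogeneous forms over `K` in the coordinates of the product, of arbitrary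
multidegrees `a_1, ..., a_c`, let `W = zeroSet X g` be the set of their common zeros in the product of the
`X_κ`, and let `f_0, ..., f_n` be multihomogeneous forms over `K` of the same multidegree `D` without common
zeros on `W`. They define a morphism `f` from `W` to `ℙ^n`.

Theorem. Suppose that the multidegrees `a_1, ..., a_c` and `e` copies of `D` can be assigned to factors in
which they are positive, with at most `δ_κ` of them assigned to `X_κ` (`PositiveIntersection`). Let `Z` be a
closed subset of `ℙ^n` of dimension at most `e` defined over `K` which contains `f(W)` (for instance
`Z = f(W)`, which is closed as `f` is proper). Then the dimension of `Z` is `e`, and Q1 holds for `Z`.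

The numerical condition says that the product of the classes `a_1, ..., a_c`, of `e` copies of `D` and of the
classes of the `X_κ` is not zero in the Chow ring of the product of the projective spaces. If `W` has the
expected dimension `∑ δ_κ - c`, so that its class is the product of the `a_j` and of the classes of the
`X_κ`, this is the case for `e = dim f(W)`. So Q1 holds for all images, under morphisms
given by multihomogeneous forms, of all complete intersections of arbitrary multidegrees (and of the
expected dimension) in products of arbitrary curves, projective spaces and other varieties for which Q1 is
known.

Some examples (not part of the formal statement): surfaces in products `C_1 × C_2 × C_3` of arbitrary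
curves, or in `C_1 × C_2 × ℙ^1`, `C × ℙ^2`, and complete intersections of two divisors in such fourfolds, with
all their embeddings given by multihomogeneous forms; the projective bundle of every globally generated
vector bundle on a curve `C` is such a hypersurface, of bidegree `(b, 1)`, in `C × ℙ^s`; families of
hypersurfaces and of complete intersections over curves.

Relation to other results of this folder. `ImagesOfCompleteIntersections` (starting point) is the case
that `K = ℂ_p` and all `X_κ` are projective spaces. `ToricSectionsAndStability` together with `Products`
(starting point) gives the case that all multidegrees `a_j` and `D` are proportional (the complete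
intersections in a Segre embedding of the product). New are the other factors (with curves, which are
unconditional by `Curves`), for arbitrary multidegrees which need not be proportional, and all base fields.

Proof. By `GeometricBaseChange` one can assume that `K = C` and `E = F`. Approximate the `X_κ` by closed sets
`Y_κ` over `F`, the forms `g_j` by multihomogeneous forms `H_j` over `F` of multidegrees `p ^ s a_j`, and the
equations `z_i = f_i(y)` by monic equations `G_i(y, z_i) = 0` over `F`, in which `z_i` has the multidegree `D`
(starting files `W101`, `W515`). Let `Y` be the set of the `z` such that `G_i(y, z_i) = 0` for all `i` for some
common zero `y` of the `H_j` in the product of the `Y_κ`. By the Nullstellensatz over `C` (`core`) the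
coordinates `z` are not all small in comparison with `y`, so `Y` is closed (starting file `W356`), and it lies
in the given tube around `Z`. Its dimension is at most `e`, as that of `Z` is (`approximable_of_tubes`). Its
dimension is at least `e`: for given forms `q_1, ..., q_e` on `Y` one finds a common zero by induction (`exc`).
In the first step all the equations `H_j = 0` and `q_k(z) = 0` are replaced by linear equations in the
coordinates of the factors to which they are assigned; these have a common zero since the dimension of
`Y_κ` is at least `δ_κ`. The equations are then exchanged one after the other: if a system of
multihomogeneous equations is solvable together with every linear equation in the coordinates of one factor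
then it is solvable together with every equation of positive degree in this factor (starting file `W338`).
-/

set_option autoImplicit false

namespace Pool.Agent.Results.MP_db3ab1_ag.MultiprojectiveImages

open MvPolynomial Pool.Agent.Y129.TA Pool.Agent.Y129.TB Run7.h458 Run7.h458.MP

/-- **Q1 for images of complete intersections of arbitrary multidegrees in products of curves,
projective spaces and other varieties for which Q1 is known.** -/
theorem result {p : ℕ} [Fact p.Prime] {C F K E : Type} [Field C] [Field F] [CharP F p] [Field K]
    [Field E] [Algebra K C] [Algebra E F] [IsAlgClosed C] [IsAlgClosed F] (T : Tilting p C F)
    (B : BaseField T K E) (hE : IsCompletedClosure T.toTiltPair E) {r c n e : ℕ} {m δ : Fin r → ℕ}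
    (X : ∀ κ, Set (Fin (m κ + 1) → C)) (hX : ∀ κ, IsFactor T.toTiltPair K E (X κ) (δ κ))
    (g : Fin c → MvPolynomial (Coord m) K) (a : Fin c → Fin r → ℕ)
    (hg : ∀ j, IsMultihomogeneous (g j) (a j))
    (f : Fin (n + 1) → MvPolynomial (Coord m) K) (D : Fin r → ℕ)
    (hf : ∀ i, IsMultihomogeneous (f i) D) (hD : D ≠ 0)
    (h0 : ∀ y ∈ zeroSet X g, ∃ i, aeval y (f i) ≠ 0) (hpos : PositiveIntersection δ a D e)
    {Z : Set (Fin (n + 1) → C)} (hZ : IsConeOver K Z) (hZe : DimLEOver K Z e)
    (hsub : ∀ y ∈ zeroSet X g, (fun i => aeval y (f i)) ∈ Z) :
    DimGE Z e ∧ Approximable T.toTiltPair K E Z e :=
  multi_main T B hE X hX g a hg f D hf hD h0 hpos hZ hZe hsub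

end Pool.Agent.Results.MP_db3ab1_ag.MultiprojectiveImages
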