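import Pool.Agent.Run7.h16.PX.Final

/-!
# Q1 has to be proved only for varieties over a dense algebraically closed subfield (over number fields)

The setting and the notions `Tilting`, `BaseField`, `IsCompletedClosure`, `IsConeOver`, `DimGE`,
`DimLEOver`, `Approximable` are those of `GeometricBaseChange`: `K` is a perfectoid field of
characteristic `0` and residue characteristic `p`, `E = K♭` its tilt, `C` the completion of an algebraic
closure of `K`, `F = C♭`. Closed subsets of projective spaces are given by the points over `C` of their
cones. `Approximable T K E X d` is Q1 for a closed subset `X` of dimension `d` defined over `K`: for all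
homogeneous polynomials `P_k` over `K` which vanish on `X` and all `ε > 0` there is a closed subset `Y` of
dimension `d` defined over `E` with `|P_k (y♯)| ≤ ε ‖y‖ ^ (deg P_k)` for all `k` and all points `y` of `Y`.

`IsSmooth K X d` (file `Run7/h16/PX/Defs.lean`): `X` is a smooth closed subscheme of dimension `d` of `ℙ^n`
over `K`: it is defined by forms `P_l` over `K`, and near every point of `X` the scheme `V(P)` is defined
by `c` of the `P_l` with a nonzero `c × c` minor of their Jacobian matrix. `IsClosedOver K X d`: `X` is any
closed subset of dimension `d` defined over `K`.

Let `k` be a dense algebraically closed subfield of `C`, and `L` a dense algebraically closed subfield of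
`F = C♭`. Example: if `K` is algebraic over `ℚ_p` up to completion, then `C = ℂ_p`, and one can take for `k`
the algebraic closure of `ℚ`, and for `L` the algebraic closure of `𝔽_p(t)`, where `t♯ = p`.

Theorem. For all `n` and `d` the following are equivalent.

1. For all smooth `X ⊂ ℙ^n` of dimension `d` over `k` and all neighbourhoods of `X` given by forms over
   `k` there is a closed `Y` of dimension `d` over `L` in the preimage of the neighbourhood.
2. Q1 holds for all smooth `X ⊂ ℙ^n` of dimension `d` over `C`.
3. Q1 holds for all smooth `X ⊂ ℙ^n` of dimension `d` over all perfectoid fields `K` with completed
   algebraic closure `C` (with approximating varieties over `K♭`).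

The same holds for all closed subsets instead of the smooth ones.

So Q1 over all perfectoid subfields `K` of `ℂ_p` (with completed algebraic closure `ℂ_p`) is a statement
about countably many varieties: it has to be proved only for smooth projective varieties over number
fields, and in the neighbourhoods given by forms over number fields one only needs varieties over function
fields of curves over finite fields.

Proof. From 2 to 3: `GeometricBaseChange` (helper458). From 3 to 1: the approximating varieties over `F`
can be replaced by varieties over `L` (`approximable_dense`, helper458). From 1 to 2: let `X` be defined by
forms `P_l` over `C`. By the Nullstellensatz and by noetherian induction smoothness is expressed by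
finitely many identities `h P_l = ∑_j B_(l,j) P_(J j)` and `f = det (∂P_(J j) / ∂x_(I i)) h` such that the
polynomials `f` and `P_l` have no common zero in `ℙ^n`. The coefficients of all these polynomials can be
approximated by elements of `k` with the same algebraic relations over `k` (`exists_specialization` of
helper458, with roots of unity of order prime to `p`, `manyNodes₀`). This gives forms `γ_l` over `k` close to
the `P_l` with the same identities. The polynomials `f'`, `γ_l` still have no common zero, because they
are close to `f`, `P_l`: so `V(γ)` is smooth. Its dimension is at most `d` for the same reason, and at
least `d` because the dimension does not decrease under specialization (`dimGE_specialize`, helper458).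
Finally Q1 is stable under limits (`approximable_limit`): an approximation for a small tube around `V(γ)`
is an approximation for a given tube around `X`, if `γ` is close to `P`.
-/

set_option autoImplicit false

namespace Pool.Agent.Results.MP_db3ab1_ag.NumberFieldsSuffice

open MvPolynomial Pool.Agent.Y129.TA Pool.Agent.Y129.TB Run7.h458 Run7.h16.PX

/-- **Q1 for all smooth `X` (resp. for all closed `X`) over all perfectoid fields with completed algebraic
closure `C` is equivalent to the statement for the `X` defined over a dense algebraically closed subfield `k`
of `C`, with neighbourhoods given over `k` and approximating varieties over a dense algebraically closed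
subfield `L` of `F = C♭`.** -/
theorem result {p : ℕ} [Fact p.Prime] {C F k L : Type} [Field C] [Field F] [CharP F p] [Field k]
    [Field L] [Algebra k C] [Algebra L F] [IsAlgClosed k] [IsAlgClosed L] [IsAlgClosed C]
    [IsAlgClosed F] (T : Tilting p C F) (hk : DenseIn T.absK k) (hL : DenseIn T.absF L)
    (hF : CompleteFor T.absF) (n d : ℕ) :
    -- smooth closed subschemes
    List.TFAE [
      ∀ X : Set (Fin (n + 1) → C), IsSmooth k X d → Approximable T.toTiltPair k L X d,
      ∀ X : Set (Fin (n + 1) → C), IsSmooth C X d → Approximable T.toTiltPair C F X d,
      ∀ (K E : Type) [Field K] [Field E] [Algebra K C] [Algebra E F], BaseField T K E →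
        IsCompletedClosure T.toTiltPair E → ∀ X : Set (Fin (n + 1) → C), IsSmooth K X d →
          Approximable T.toTiltPair K E X d] ∧
    -- all closed subsets
    List.TFAE [
      ∀ X : Set (Fin (n + 1) → C), IsClosedOver k X d → Approximable T.toTiltPair k L X d,
      ∀ X : Set (Fin (n + 1) → C), IsClosedOver C X d → Approximable T.toTiltPair C F X d,
      ∀ (K E : Type) [Field K] [Field E] [Algebra K C] [Algebra E F], BaseField T K E →
        IsCompletedClosure T.toTiltPair E → ∀ X : Set (Fin (n + 1) → C), IsClosedOver K X d →
          Approximable T.toTiltPair K E X d] :=
  ⟨smooth_tfae T hk hL hF n d, closed_tfae T hk hL hF n d⟩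

end Pool.Agent.Results.MP_db3ab1_ag.NumberFieldsSuffice
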